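import Pool.Agent.H77.GR.Stm

/-!
# The module RED of the project GR
-/

set_option autoImplicit false
set_option linter.all false

open MvPolynomial Module Pool.Agent.H77.TF Pool.Agent.H77.GR

namespace Pool.Agent.H23.GR

noncomputable section

section gen

variable {R R' : Type} [CommRing R] [CommRing R'] (φ : R →+* R')

lemma map_linR (a : Fin 3 → R) : MvPolynomial.map φ (linR a) = linR (fun i => φ (a i)) := by
  simp [linR]

lemma map_evlR (a : Fin 3 → R) (v : Fin 3 → MvPolynomial (Fin 3) R) :
    MvPolynomial.map φ (evlR a v) = evlR (fun i => φ (a i)) (mapV φ v) := by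
  simp [evlR, mapV]

lemma mapV_mem {ν : Type} {A : ν → Fin 3 → R} {m : ℕ} {v : Fin 3 → MvPolynomial (Fin 3) R}
    (hv : v ∈ LRm A m) : mapV φ v ∈ LRm (mapA φ A) m := by
  refine ⟨fun i => ?_, fun j => (hv.2 j).map φ⟩
  have h := map_dvd (MvPolynomial.map φ) (hv.1 i)
  rw [map_linR, map_evlR] at h
  exact h

lemma mapV_sum {r : ℕ} (c : Fin r → R) (V : Fin r → Fin 3 → MvPolynomial (Fin 3) R) :
    mapV φ (∑ t, c t • V t) = ∑ t, φ (c t) • mapV φ (V t) := by
  funext j
  simp only [mapV, Finset.sum_apply, map_sum, Pi.smul_apply, smul_eq_C_mul, map_mul, map_C]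

end gen

/-- the coefficients -/
def cf (R : Type) [CommRing R] (m : ℕ) : (Fin 3 → MvPolynomial (Fin 3) R) →ₗ[R]
    (Fin 3 × {d : Fin 3 →₀ ℕ // d.degree ≤ m} → R) where
  toFun v p := (v p.1).coeff p.2.1
  map_add' v w := by
    funext p
    simp
  map_smul' c v := by
    funext p
    simp

instance (m : ℕ) : Finite {d : Fin 3 →₀ ℕ // d.degree ≤ m} :=
  (Finsupp.finite_of_degree_le m).to_subtype

lemma cf_inj {R : Type} [CommRing R] {ν : Type} (A : ν → Fin 3 → R) (m : ℕ) :
    Function.Injective ((cf R m).comp (LRm A m).subtype) := by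
  intro v w h
  apply Subtype.ext
  funext j
  ext d
  by_cases hd : d.degree ≤ m
  · exact congrFun h (j, ⟨d, hd⟩)
  · have h1 : d.degree ≠ m := fun h => hd h.le
    rw [(v.2.2 j).coeff_eq_zero h1, (w.2.2 j).coeff_eq_zero h1]

lemma fin_LRm {R : Type} [CommRing R] [IsNoetherianRing R] {ν : Type} (A : ν → Fin 3 → R)
    (m : ℕ) : Module.Finite R (LRm A m) :=
  Module.Finite.of_injective _ (cf_inj A m)

lemma basis_LRm {R : Type} [CommRing R] [IsDomain R] [IsPrincipalIdealRing R] {ν : Type}
    (A : ν → Fin 3 → R) (m : ℕ) : ∃ r : ℕ, Nonempty (Basis (Fin r) R (LRm A m)) := by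
  obtain ⟨r, ⟨b⟩⟩ := Submodule.nonempty_basis_of_pid
    (Pi.basisFun R (Fin 3 × {d : Fin 3 →₀ ℕ // d.degree ≤ m}))
    (LinearMap.range ((cf R m).comp (LRm A m).subtype))
  exact ⟨r, ⟨b.map (LinearEquiv.ofInjective _ (cf_inj A m)).symm⟩⟩

theorem red (hSBR : S_SBR) : S_RED := by
  intro R _ _ _ F _ _ _ ν _ A m hA hle v hv
  have hu : ∀ i, ∃ j u, u * A i j = 1 := by
    intro i
    obtain ⟨j, hj⟩ : ∃ j, IsLocalRing.residue R (A i j) ≠ 0 := by
      by_contra h
      push Not at h
      exact hA i (funext h)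
    have h2 : IsUnit (A i j) := (IsLocalRing.residue_ne_zero_iff_isUnit _).1 hj
    obtain ⟨u, hu⟩ := h2.exists_left_inv
    exact ⟨j, u, hu⟩
  choose jj uu huu using hu
  obtain ⟨ϖ, hϖ⟩ := IsDiscreteValuationRing.exists_irreducible R
  have hinj : Function.Injective (algebraMap R F) := IsFractionRing.injective R F
  have hsg : ∀ i f, linR (A i) ∣ f ↔ sg (A i) (jj i) (uu i) f = 0 := fun i =>
    (hSBR R (A i) (jj i) (uu i) (huu i)).1
  -- saturation
  have hsat : ∀ (c : R) (V : Fin 3 → MvPolynomial (Fin 3) R), c ≠ 0 → c • V ∈ LRm A m →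
      V ∈ LRm A m := by
    intro c V hc hV
    refine ⟨fun i => ?_, fun j => ?_⟩
    · have h1 := hV.1 i
      have h2 : evlR (A i) (c • V) = C c * evlR (A i) V := by
        simp only [evlR, Finset.mul_sum, Pi.smul_apply, smul_eq_C_mul]
        exact Finset.sum_congr rfl fun j _ => by ring
      rw [h2, hsg, map_mul] at h1
      have h3 : sg (A i) (jj i) (uu i) (C c) = C c := by
        simp [sg]
      rw [h3] at h1
      rw [hsg]
      exact (mul_eq_zero.1 h1).resolve_left (by simpa using hc)
    · intro d hd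
      refine hV.2 j ?_
      rw [Pi.smul_apply, coeff_smul, smul_eq_mul]
      exact mul_ne_zero hc hd
  -- denominators
  have hclear : ∀ w ∈ LRm (mapA (algebraMap R F) A) m, ∃ c : R, c ≠ 0 ∧ ∃ V ∈ LRm A m,
      mapV (algebraMap R F) V = algebraMap R F c • w := by
    intro w hw
    classical
    obtain ⟨c, hc⟩ := IsLocalization.exist_integer_multiples_of_finset (nonZeroDivisors R)
      (Finset.univ.biUnion fun j => (w j).support.image fun d => (w j).coeff d)
    have h1 : ∀ j, ∃ V : MvPolynomial (Fin 3) R,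
        MvPolynomial.map (algebraMap R F) V = C (algebraMap R F c) * w j := by
      intro j
      have h2 : C (algebraMap R F c) * w j ∈
          Set.range (MvPolynomial.map (σ := Fin 3) (algebraMap R F)) := by
        rw [mem_range_map_iff_coeffs_subset]
        intro x hx
        obtain ⟨d, hd, rfl⟩ : ∃ d ∈ (C (algebraMap R F c) * w j).support,
            x = (C (algebraMap R F c) * w j).coeff d := by
          obtain ⟨d, hd, hd2⟩ := Finset.mem_image.1 (Finset.mem_coe.1 hx)
          exact ⟨d, hd, hd2.symm⟩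
        rw [MvPolynomial.mem_support_iff, coeff_C_mul] at hd
        have h3 : (w j).coeff d ≠ 0 := right_ne_zero_of_mul hd
        obtain ⟨y, hy⟩ := hc ((w j).coeff d) (Finset.mem_biUnion.2 ⟨j, Finset.mem_univ _,
          Finset.mem_image_of_mem _ (MvPolynomial.mem_support_iff.2 h3)⟩)
        rw [coeff_C_mul]
        refine ⟨y, ?_⟩
        rw [hy, Algebra.smul_def]
      exact h2
    choose V hV using h1
    refine ⟨c, nonZeroDivisors.ne_zero c.2, V, ⟨fun i => ?_, fun j => ?_⟩, ?_⟩
    · have h2 : linR (mapA (algebraMap R F) A i) ∣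
          MvPolynomial.map (algebraMap R F) (evlR (A i) V) := by
        rw [map_evlR]
        have h3 : mapV (algebraMap R F) V = algebraMap R F c • w := by
          funext j
          rw [Pi.smul_apply, smul_eq_C_mul]
          exact hV j
        rw [h3]
        exact ((LRm (mapA (algebraMap R F) A) m).smul_mem _ hw).1 i
      have h4 : algebraMap R F (uu i) * mapA (algebraMap R F) A i (jj i) = 1 := by
        show algebraMap R F (uu i) * algebraMap R F (A i (jj i)) = 1
        rw [← map_mul, huu, map_one]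
      rw [(hSBR F (mapA (algebraMap R F) A i) (jj i) (algebraMap R F (uu i)) h4).1] at h2
      have h5 := (hSBR R (A i) (jj i) (uu i) (huu i)).2.2 F (algebraMap R F) (evlR (A i) V)
      rw [hsg]
      apply MvPolynomial.map_injective _ hinj
      rw [map_zero, h5]
      exact h2
    · intro d hd
      have h2 : (MvPolynomial.map (algebraMap R F) (V j)).coeff d ≠ 0 := by
        rw [coeff_map]
        exact fun h => hd (hinj (by rw [h, map_zero]))
      rw [hV j, coeff_C_mul] at h2
      exact hw.2 j (right_ne_zero_of_mul h2)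
    · funext j
      rw [Pi.smul_apply, smul_eq_C_mul]
      exact hV j
  obtain ⟨r, ⟨b⟩⟩ := basis_LRm A m
  -- rank over F
  have hF : finrank F (LRm (mapA (algebraMap R F) A) m) ≤ r := by
    set bF : Fin r → LRm (mapA (algebraMap R F) A) m := fun t =>
      ⟨mapV (algebraMap R F) (b t : Fin 3 → MvPolynomial (Fin 3) R), mapV_mem _ (b t).2⟩ with hbF
    have hspan : Submodule.span F (Set.range bF) = ⊤ := by
      rw [eq_top_iff]
      rintro w -
      obtain ⟨c, hc, V, hV, hVw⟩ := hclear w.1 w.2
      have hc' : algebraMap R F c ≠ 0 := fun h => hc (hinj (by rw [h, map_zero]))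
      have h1 : (⟨V, hV⟩ : LRm A m) = ∑ t, b.repr ⟨V, hV⟩ t • b t := (b.sum_repr _).symm
      have h2 : V = ∑ t, b.repr ⟨V, hV⟩ t • (b t : Fin 3 → MvPolynomial (Fin 3) R) := by
        have h2' := congrArg (fun x : LRm A m => (x : Fin 3 → MvPolynomial (Fin 3) R)) h1
        simp only [Submodule.coe_sum, Submodule.coe_smul] at h2'
        exact h2'
      have h3 : w = ∑ t, ((algebraMap R F c)⁻¹ * algebraMap R F (b.repr ⟨V, hV⟩ t)) • bF t := by
        apply Subtype.ext
        have h4 := mapV_sum (algebraMap R F) (fun t => b.repr ⟨V, hV⟩ t)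
          (fun t => (b t : Fin 3 → MvPolynomial (Fin 3) R))
        rw [← h2, hVw] at h4
        have h5 : (w : Fin 3 → MvPolynomial (Fin 3) F) =
            (algebraMap R F c)⁻¹ • (algebraMap R F c • w.1) := by
          rw [smul_smul, inv_mul_cancel₀ hc', one_smul]
        rw [h5, h4, Finset.smul_sum]
        simp only [Submodule.coe_sum, Submodule.coe_smul, hbF, smul_smul]
      rw [h3]
      exact Submodule.sum_mem _ fun t _ => Submodule.smul_mem _ _
        (Submodule.subset_span ⟨t, rfl⟩)
    have := finrank_le_of_span_eq_top hspan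
    rwa [Fintype.card_fin] at this
  -- the reduction
  have hres : Function.Surjective (IsLocalRing.residue R) := IsLocalRing.residue_surjective
  set bk : Fin r → LRm (mapA (IsLocalRing.residue R) A) m := fun t =>
    ⟨mapV (IsLocalRing.residue R) (b t : Fin 3 → MvPolynomial (Fin 3) R), mapV_mem _ (b t).2⟩
    with hbk
  have hli : LinearIndependent (IsLocalRing.ResidueField R) bk := by
    rw [Fintype.linearIndependent_iff]
    intro g hg t
    choose g' hg' using fun t => hres (g t)
    have h1 : mapV (IsLocalRing.residue R)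
        (∑ t, g' t • (b t : Fin 3 → MvPolynomial (Fin 3) R)) = 0 := by
      rw [mapV_sum]
      have h2 := congrArg (LRm (mapA (IsLocalRing.residue R) A) m).subtype hg
      simp only [hg']
      simpa [hbk] using h2
    have h2 : ∀ j, ∃ W, (∑ t, g' t • (b t : Fin 3 → MvPolynomial (Fin 3) R)) j = C ϖ * W := by
      intro j
      have h3 : C ϖ ∣ (∑ t, g' t • (b t : Fin 3 → MvPolynomial (Fin 3) R)) j := by
        rw [C_dvd_iff_dvd_coeff]
        intro d
        have h4 := congrArg (coeff d) (congrFun h1 j)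
        simp only [mapV] at h4
        rw [coeff_map, Pi.zero_apply, coeff_zero, IsLocalRing.residue_eq_zero_iff,
          hϖ.maximalIdeal_eq, Ideal.mem_span_singleton] at h4
        exact h4
      exact h3
    choose W hW using h2
    have h3 : (∑ t, g' t • (b t : Fin 3 → MvPolynomial (Fin 3) R)) = ϖ • W := by
      funext j
      rw [hW j, Pi.smul_apply, smul_eq_C_mul]
    have h4 : (∑ t, g' t • (b t : Fin 3 → MvPolynomial (Fin 3) R)) ∈ LRm A m :=
      Submodule.sum_mem _ fun t _ => Submodule.smul_mem _ _ (b t).2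
    have h5 : W ∈ LRm A m := hsat ϖ W hϖ.ne_zero (h3 ▸ h4)
    have h6 : ∑ t, g' t • b t = ϖ • (⟨W, h5⟩ : LRm A m) := by
      apply Subtype.ext
      simpa using h3
    have h7 := congrArg (fun x => b.repr x t) h6
    simp only [map_smul, Finsupp.smul_apply, smul_eq_mul] at h7
    rw [b.repr_sum_self] at h7
    rw [← hg' t, h7, map_mul]
    have h8 : IsLocalRing.residue R ϖ = 0 := by
      rw [IsLocalRing.residue_eq_zero_iff, hϖ.maximalIdeal_eq]
      exact Ideal.mem_span_singleton_self ϖ
    rw [h8, zero_mul]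
  haveI := fin_LRm (mapA (IsLocalRing.residue R) A) m
  have hcard : Fintype.card (Fin r) = finrank (IsLocalRing.ResidueField R)
      (LRm (mapA (IsLocalRing.residue R) A) m) := by
    refine le_antisymm hli.fintype_card_le_finrank ?_
    rw [Fintype.card_fin]
    exact hle.trans hF
  have hspan := hli.span_eq_top_of_card_eq_finrank' hcard
  have hv' : (⟨v, hv⟩ : LRm (mapA (IsLocalRing.residue R) A) m) ∈
      Submodule.span (IsLocalRing.ResidueField R) (Set.range bk) := by
    rw [hspan]
    exact Submodule.mem_top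
  obtain ⟨g, hg⟩ := (Submodule.mem_span_range_iff_exists_fun _).1 hv'
  choose g' hg' using fun t => hres (g t)
  refine ⟨∑ t, g' t • (b t : Fin 3 → MvPolynomial (Fin 3) R),
    Submodule.sum_mem _ fun t _ => Submodule.smul_mem _ _ (b t).2, ?_⟩
  rw [mapV_sum]
  have h2 := congrArg (LRm (mapA (IsLocalRing.residue R) A) m).subtype hg
  simp only [hg']
  simpa [hbk] using h2

end

end Pool.Agent.H23.GR
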